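import Pool.Agent.Helper73.OB.GoalsA
import Pool.Agent.Helper73.OB.GoalsB

/-!
Project OB (MP_fc0446_an), packet GEN: the new label generates.
-/

open MeasureTheory
open scoped ENNReal

namespace Pool.Agent.Helper2.OB

open Pool.Agent.Helper73.OB

noncomputable section

/-- Runs are measurable for every `σ`-algebra that makes the maps measurable. -/
theorem run_meas {S X : Type} [MeasurableSpace X] {f : S → X → X} (hf : ∀ a, Measurable (f a))
    (w : List S) : Measurable (run f w) := by
  induction w with
  | nil => exact measurable_id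
  | cons a w ih => exact ih.comp (hf a)

/-- Piecewise measurable maps with countably many pieces. -/
theorem piece {ι X Y : Type} [Countable ι] [MeasurableSpace X] [MeasurableSpace Y]
    {F : ι → X → Y} (hF : ∀ i, Measurable (F i)) {c : X → ι} (hc : ∀ i, MeasurableSet (c ⁻¹' {i})) :
    Measurable fun x => F (c x) x := by
  intro B hB
  have h : (fun x => F (c x) x) ⁻¹' B = ⋃ i : ι, (c ⁻¹' {i}) ∩ (F i ⁻¹' B) := by
    ext x
    simp only [Set.mem_preimage, Set.mem_iUnion, Set.mem_inter_iff, Set.mem_singleton_iff]
    constructor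
    · intro h
      exact ⟨c x, rfl, h⟩
    · rintro ⟨w, hw, h⟩
      rw [hw]
      exact h
  rw [h]
  exact MeasurableSet.iUnion fun w => (hc w).inter (hF w hB)

/-- `enc` for two families of maps that agree on an invariant set. -/
theorem enc_congr (hN : S_NAT) {S X : Type} (p : Bit → S) (δ : Bit) (f f' : S → X → X)
    (s : X → Sk) (G : Set X) (hG : ∀ a, ∀ x ∈ G, f a x ∈ G) (hff : ∀ a, ∀ x ∈ G, f' a x = f a x) :
    ∀ x ∈ G, enc p δ f' s x = enc p δ f s x := by
  intro x hx
  let fG : S → G → G := fun a y => ⟨f a y.1, hG a y.1 y.2⟩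
  have h1 := (hN S G X p δ fG f (fun y => y.1) (fun a y => rfl)).2.2.1 s ⟨x, hx⟩
  have h2 := (hN S G X p δ fG f' (fun y => y.1) (fun a y => (hff a y.1 y.2).symm)).2.2.1 s ⟨x, hx⟩
  exact h2.symm.trans h1

open Classical in
/-- The old letters in terms of the new ones. -/
def fh {S X : Type} (p : Bit → S) (g : S → X → X) (s : X → Sk) (K K' : Bit → Bit → X → List S)
    (a : S) (x : X) : X :=
  if h : ∃ z, p z = a then
    run g (K' (h.choose + 1) ((s x).2.1 0 h.choose)
      (g (p ((s x).2.1 0 h.choose)) (run g (K h.choose ((s x).2.1 0 h.choose) x) x)))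
      (g (p ((s x).2.1 0 h.choose)) (run g (K h.choose ((s x).2.1 0 h.choose) x) x))
  else g a x

theorem fh_meas {S X : Type} [Finite S] [MeasurableSpace X] (p : Bit → S) (g : S → X → X)
    (s : X → Sk) (K K' : Bit → Bit → X → List S) (hg : ∀ a, Measurable (g a)) (hs : Measurable s)
    (hK : ∀ z c, @Measurable X (List S) _ ⊤ (K z c))
    (hK' : ∀ z c, @Measurable X (List S) _ ⊤ (K' z c)) (a : S) :
    Measurable (fh p g s K K' a) := by
  have hcount : Countable (List S) := inferInstance
  by_cases h : ∃ z, p z = a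
  · let F : Bit → X → X := fun c x =>
      run g (K' (h.choose + 1) c (g (p c) (run g (K h.choose c x) x)))
        (g (p c) (run g (K h.choose c x) x))
    have h1 : fh p g s K K' a = fun x => F ((s x).2.1 0 h.choose) x := by
      funext x
      exact dif_pos h
    rw [h1]
    refine piece (F := F) (c := fun x => (s x).2.1 0 h.choose) (fun c => ?_) (fun i => ?_)
    · have h2 : Measurable fun x => g (p c) (run g (K h.choose c x) x) :=
        (hg _).comp (piece (F := fun w => run g w) (run_meas hg)
          (fun w => hK h.choose c MeasurableSpace.measurableSet_top))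
      exact (piece (F := fun w => run g w) (run_meas hg)
        (fun w => hK' (h.choose + 1) c MeasurableSpace.measurableSet_top)).comp h2
    · have h2 : Measurable fun x => (s x).2.1 0 h.choose := by
        have h3 : Measurable fun t : Sk => t.2.1 := measurable_snd.fst
        have h4 : Measurable fun b : Bit → Bit → Bit => b 0 := measurable_pi_apply 0
        have h5 : Measurable fun b : Bit → Bit => b h.choose := measurable_pi_apply h.choose
        exact (h5.comp (h4.comp h3)).comp hs
      exact h2 (measurableSet_singleton i)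
  · have h1 : fh p g s K K' a = g a := by
      funext x
      exact dif_neg h
    rw [h1]
    exact hg a

/-- The field of the old label as a function of the new skeleton field is measurable. -/
theorem psi_meas (hM : S_MEAS) {S X : Type} [Finite S] [MeasurableSpace X] (β : S → S)
    (p : Bit → S) (g : S → X → X)
    (s : X → Sk) (K K' : Bit → Bit → X → List S) (hg : ∀ a, Measurable (g a)) (hs : Measurable s)
    (hK : ∀ z c, @Measurable X (List S) _ ⊤ (K z c))
    (hK' : ∀ z c, @Measurable X (List S) _ ⊤ (K' z c)) :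
    Measurable (field β (fh p g s K K') (enc p 0 (fh p g s K K') s)) := by
  have h1 := fh_meas p g s K K' hg hs hK hK'
  have h2 : Measurable (enc p 0 (fh p g s K K') s) :=
    (hM S X p 0 (fh p g s K K') h1).2.2.1 s hs
  exact measurable_pi_lambda _ fun w => h2.comp (run_meas h1 w.1)

theorem sig_univ {S X : Type} (g : S → X → X) (s : X → Sk) :
    sig g s Set.univ = MeasurableSpace.comap (fun x (w : List S) => s (run g w x))
      MeasurableSpace.pi := by
  unfold sig MeasurableSpace.pi
  rw [MeasurableSpace.comap_iSup]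
  simp only [MeasurableSpace.comap_comp, Set.mem_univ, iSup_pos]
  rfl

theorem sig_univ_meas {S X : Type} (g : S → X → X) (s : X → Sk) (w : List S) :
    @Measurable X Sk (sig g s Set.univ) _ (fun x => s (run g w x)) := by
  rw [measurable_iff_comap_le]
  exact le_iSup₂_of_le w (Set.mem_univ w) le_rfl

theorem sig_univ_g {S X : Type} (g : S → X → X) (s : X → Sk) (a : S) :
    @Measurable X X (sig g s Set.univ) (sig g s Set.univ) (g a) := by
  have h1 : @Measurable X X (sig g s Set.univ)
      (MeasurableSpace.comap (fun x (w : List S) => s (run g w x)) MeasurableSpace.pi) (g a) := by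
    rw [@measurable_comap_iff]
    refine @measurable_pi_lambda _ _ _ (sig g s Set.univ) _ _ fun w => ?_
    exact sig_univ_meas g s (a :: w)
  rwa [← sig_univ] at h1

theorem gen (hB : S_BACK) (hM : S_MEAS) (hN : S_NAT) : S_GEN := by
  intro S _ βZ βD p e X mX _ μ _ f g s K K' G hE l hl hgen hle hse
  obtain ⟨hB1, hB2, -⟩ := hB S βZ βD p X μ f g s K K' G hE
  have hcount : Countable (List S) := inferInstance
  have hneX : Nonempty X := by
    by_contra h
    rw [not_nonempty_iff] at h
    have h1 : (μ Set.univ) = 0 := by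
      rw [Set.univ_eq_empty_iff.2 h, measure_empty]
    rw [measure_univ] at h1
    exact one_ne_zero h1
  have hHle : sig f s {w | Red βZ w ∧ IsH p w} ≤ sig g s Set.univ := by
    refine iSup₂_le fun w hw => ?_
    have h1 : (fun x => s (run f w x)) = fun x => s (run g w x) := by
      funext x
      rw [hB2 x w hw.2]
    rw [h1]
    exact le_iSup₂_of_le w (Set.mem_univ w) le_rfl
  have hKG : ∀ z c, @Measurable X (List S) (sig g s Set.univ) ⊤ (K z c) := fun z c =>
    (hE.K_meas z c).mono hHle le_rfl
  have hKG' : ∀ z c, @Measurable X (List S) (sig g s Set.univ) ⊤ (K' z c) := fun z c =>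
    (hE.K'_meas z c).mono hHle le_rfl
  have hψ := @psi_meas hM S X _ (sig g s Set.univ) βZ p g s K K' (sig_univ_g g s)
    (sig_univ_meas g s []) hKG hKG'
  obtain ⟨ρ, hρ, hρx⟩ := hgen
  have hρψ := hρ.comp hψ
  rw [sig_univ] at hρψ
  obtain ⟨h, hh, hhe⟩ := hρψ.exists_eq_measurable_comp
  -- `fh = f` on `G`
  have hff : ∀ a, ∀ x ∈ G, fh p g s K K' a x = f a x := by
    intro a x hx
    by_cases ha : ∃ z, p z = a
    · have h1 : fh p g s K K' a x = run g (K' (ha.choose + 1) ((s x).2.1 0 ha.choose)
          (g (p ((s x).2.1 0 ha.choose)) (run g (K ha.choose ((s x).2.1 0 ha.choose) x) x)))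
          (g (p ((s x).2.1 0 ha.choose)) (run g (K ha.choose ((s x).2.1 0 ha.choose) x) x)) :=
        dif_pos ha
      rw [h1, hB2 _ _ (hE.K_H _ _ _).2, hB2 _ _ (hE.K'_H _ _ _).2]
      rw [← hB1 x hx ha.choose _ rfl _ rfl, ha.choose_spec]
    · have h1 : fh p g s K K' a x = g a x := dif_neg ha
      rw [h1, hE.g_H a (by rintro ⟨z, hz⟩; exact ha ⟨z, hz⟩)]
  have hrun : ∀ (w : List S), ∀ x ∈ G, run (fh p g s K K') w x = run f w x ∧ run f w x ∈ G := by
    intro w
    induction w with
    | nil => exact fun x hx => ⟨rfl, hx⟩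
    | cons a w ih =>
      intro x hx
      rw [run_cons, run_cons, hff a x hx]
      exact ih _ (hE.G_f a x hx)
  have hGae : ∀ᵐ x ∂μ, x ∈ G := by
    rw [ae_iff]
    exact hE.G_full
  -- the field of the label
  have hf1 : ∀ᵐ x ∂μ, ∀ w : List S, enc p 0 f s (run f w x) = l (run f w x) := by
    rw [ae_all_iff]
    intro w
    exact (hE.sysZ.run_mp w).quasiMeasurePreserving.ae hle
  have hf2 : ∀ᵐ x ∂μ, field βZ (fh p g s K K') (enc p 0 (fh p g s K K') s) x =
      field βZ f l x := by
    filter_upwards [hGae, hf1] with x hx hx1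
    funext w
    change enc p 0 (fh p g s K K') s (run (fh p g s K K') w.1 x) = l (run f w.1 x)
    rw [(hrun w.1 x hx).1, ← hx1 w.1]
    exact enc_congr hN p 0 f _ s G hE.G_f hff _ (hrun w.1 x hx).2
  -- the skeleton field from the new label
  have hg1 : ∀ᵐ x ∂μ, ∀ w : List S, dec p 1 g (enc p 1 g s) (run g w x) = s (run g w x) := by
    rw [ae_all_iff]
    intro w
    exact (hE.sysD.run_mp w).quasiMeasurePreserving.ae hse
  let rt : (RW βD → Lb) → Lb := fun ω => ω (rootW βD)
  have hrt : Measurable rt := measurable_pi_apply _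
  have hsh : ∀ a, Measurable (shiftR (L := Lb) βD a) := fun a =>
    measurable_pi_lambda _ fun w => measurable_pi_apply _
  let sD : (RW βD → Lb) → Sk := dec p 1 (shiftR βD) rt
  have hsD : Measurable sD := (hM S (RW βD → Lb) p 1 (shiftR βD) hsh).2.2.2 rt hrt
  have hnat := (hN S X (RW βD → Lb) p 1 g (shiftR βD) (field βD g (enc p 1 g s))
    (fun a x => field_shift hE.sysD.inv _ a x)).2.2.2 rt
  have hΦ : Measurable fun (ω : RW βD → Lb) (w : List S) => sD (run (shiftR βD) w ω) :=
    measurable_pi_lambda _ fun w => hsD.comp (run_meas hsh w)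
  refine ⟨fun ω => h fun w => sD (run (shiftR βD) w ω), hh.comp hΦ, ?_⟩
  filter_upwards [hρx, hf2, hg1] with x hx1 hx2 hx3
  have e1 : (fun w : List S => sD (run (shiftR βD) w (field βD g (enc p 1 g s) x))) =
      fun w => s (run g w x) := by
    funext w
    rw [← run_equivariant (fun a x => field_shift hE.sysD.inv (enc p 1 g s) a x) w x, ← hx3 w]
    exact (hnat (run g w x)).symm
  have e2 := congrFun hhe x
  simp only [Function.comp_apply] at e2
  change h (fun w : List S => sD (run (shiftR βD) w (field βD g (enc p 1 g s) x))) = x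
  rw [e1, ← e2, hx2, hx1]

end

end Pool.Agent.Helper2.OB
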